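import Pool.Agent.Lib.MP_bb9e9d_lc.Defs
import Pool.Agent.Lib.MP_bb9e9d_lc.Abs.Defs

/-!
# The abstract problem of a knowledge base

A state is a word of length `6 N`, read as six blocks of `N` bits: concept names, `∃P`, `∃P⁻`,
matched elements of the domain and of the range of `P`, individuals.
-/

namespace Pool.Agent.Lib.MP_bb9e9d_lc

open MP_634427_lc

/-- bit `i` of the block `j` -/
def gb (w : Word) (N j i : ℕ) : Bool := decide (i < N) && w.getD (j * N + i) false

/-- the states -/
abbrev Stt (N : ℕ) : Type := List.Vector Bool (6 * N)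

/-- truth value of a concept at a state -/
def evs (N : ℕ) (w : Word) : Con → Bool
  | .top => true
  | .bot => false
  | .name A => gb w N 0 A
  | .ex R => gb w N (bif R.1 then 2 else 1) R.2
  | .neg C => !evs N w C
  | .inter C D => evs N w C && evs N w D

/-- conditions for the role `P` at a state -/
def roleB (K : Inst) (N : ℕ) (w : Word) (P : ℕ) : Bool :=
  (!gb w N 3 P || (gb w N 1 P &&
    !(K.rass.any fun p => decide (p.1 = P) && gb w N 5 p.2.1) &&
    (K.funcs.any (fun R => decide (R = (false, P))) ||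
      K.funcs.any fun R => decide (R = (true, P))))) &&
  (!gb w N 4 P || (gb w N 2 P &&
    !(K.rass.any fun p => decide (p.1 = P) && gb w N 5 p.2.2) &&
    (K.funcs.any (fun R => decide (R = (false, P))) ||
      K.funcs.any fun R => decide (R = (true, P))))) &&
  (!(K.funcs.any fun R => decide (R = (true, P))) || !gb w N 1 P ||
    (K.rass.any fun p => decide (p.1 = P) && gb w N 5 p.2.1) || gb w N 3 P) &&
  (!(K.funcs.any fun R => decide (R = (false, P))) || !gb w N 2 P ||
    (K.rass.any fun p => decide (p.1 = P) && gb w N 5 p.2.2) || gb w N 4 P)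

/-- locally admissible states -/
def locB (K : Inst) (N : ℕ) (w : Word) : Bool :=
  (K.cis.all fun p => !evs N w p.1 || evs N w p.2) &&
  (K.cass.all fun p => !gb w N 5 p.2 || gb w N 0 p.1) &&
  (K.rass.all fun p => (!gb w N 5 p.2.1 || gb w N 1 p.1) && (!gb w N 5 p.2.2 || gb w N 2 p.1)) &&
  ((List.range N).all fun P => roleB K N w P) &&
  ((List.range N).all fun a => !gb w N 5 a ||
    ((K.inds.any fun b => decide (b = a)) &&
      (List.range N).all fun b => !gb w N 5 b || decide (b = a)))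

/-- the fixed parts of two states agree -/
def mvB (K : Inst) (N : ℕ) (w w' : Word) : Bool :=
  (K.fixC.all fun A => gb w N 0 A == gb w' N 0 A) &&
  (K.fixR.all fun P => (gb w N 1 P == gb w' N 1 P) && (gb w N 2 P == gb w' N 2 P) &&
    (gb w N 3 P == gb w' N 3 P) && (gb w N 4 P == gb w' N 4 P)) &&
  ((List.range N).all fun a => gb w N 5 a == gb w' N 5 a)

/-- the preference relation: `pl p` says that `p` grows somewhere, `mi p` that it shrinks
somewhere -/
def prefB (K : Inst) (pl mi : ℕ → Bool) : Bool :=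
  (K.mins.all fun p => !pl p || K.prio.any fun r => decide (r.2 = p) && !pl r.1 && mi r.1) &&
  (K.mins.any fun p => !pl p && mi p && K.prio.all fun r => !decide (r.2 = p) ||
    (!pl r.1 && !mi r.1))

/-- the role assertions are compatible with the functionality assertions -/
def aboxB (K : Inst) : Bool :=
  K.rass.all fun p => K.rass.all fun q => !decide (p.1 = q.1) ||
    ((!(K.funcs.any fun R => decide (R = (false, p.1))) || !decide (p.2.1 = q.2.1) ||
      decide (p.2.2 = q.2.2)) &&
    (!(K.funcs.any fun R => decide (R = (true, p.1))) || !decide (p.2.2 = q.2.2) ||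
      decide (p.2.1 = q.2.1)))

/-- extend a function on `Fin N` by `false` -/
def extF {N : ℕ} (f : Fin N → Bool) (i : ℕ) : Bool := if h : i < N then f ⟨i, h⟩ else false

/-- the abstract problem -/
def prob (K : Inst) (N : ℕ) : Prob N (Stt N) where
  loc s := locB K N s.1 = true
  mv s s' := mvB K N s.1 s'.1 = true
  ob s P := gb s.1 N 1 P
  ib s P := gb s.1 N 2 P
  xb s P := gb s.1 N 3 P
  yb s P := gb s.1 N 4 P
  db s a := gb s.1 N 5 a
  mb s p := gb s.1 N 0 p
  c0 s := evs N s.1 K.C0 = true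
  nm a := (a : ℕ) ∈ K.inds
  pref pl mi := prefB K (extF pl) (extF mi) = true

/-- all names in the concept are smaller than `N` -/
def Con.Below (N : ℕ) : Con → Prop
  | .top => True
  | .bot => True
  | .name A => A < N
  | .ex R => R.2 < N
  | .neg C => C.Below N
  | .inter C D => C.Below N ∧ D.Below N

/-- all names in the input are smaller than `N` -/
structure Inst.Below (K : Inst) (N : ℕ) : Prop where
  C0 : K.C0.Below N
  cis : ∀ p ∈ K.cis, p.1.Below N ∧ p.2.Below N
  funcs : ∀ R ∈ K.funcs, R.2 < N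
  cass : ∀ p ∈ K.cass, p.1 < N ∧ p.2 < N
  rass : ∀ p ∈ K.rass, p.1 < N ∧ p.2.1 < N ∧ p.2.2 < N
  mins : ∀ A ∈ K.mins, A < N
  prio : ∀ p ∈ K.prio, p.1 < N ∧ p.2 < N
  fixC : ∀ A ∈ K.fixC, A < N
  fixR : ∀ P ∈ K.fixR, P < N

variable {Δ : Type}

/-- the domain and the range of a relation -/
def domR (R : Set (Δ × Δ)) : Set Δ := {d | ∃ e, (d, e) ∈ R}
/-- the range of a relation -/
def ranR (R : Set (Δ × Δ)) : Set Δ := {e | ∃ d, (d, e) ∈ R}

/-- The local conditions for the matched sets `X`, `Y` of a relation with domain `D` and range `E`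
that contains a given relation with domain `D0` and range `E0`; `fo`: functional, `fi`: inverse
functional. -/
structure RoleOk (fo fi : Prop) (D E D0 E0 X Y : Set Δ) : Prop where
  x : ∀ d ∈ X, d ∈ D ∧ d ∉ D0 ∧ (fo ∨ fi)
  y : ∀ e ∈ Y, e ∈ E ∧ e ∉ E0 ∧ (fo ∨ fi)
  fi : fi → ∀ d ∈ D, d ∉ D0 → d ∈ X
  fo : fo → ∀ e ∈ E, e ∉ E0 → e ∈ Y

/-- functional relations -/
def FunR (R : Set (Δ × Δ)) : Prop := ∀ d e e', (d, e) ∈ R → (d, e') ∈ R → e = e'
/-- inverse functional relations -/
def InjR (R : Set (Δ × Δ)) : Prop := ∀ d d' e, (d, e) ∈ R → (d', e) ∈ R → d = d'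

/-- the pairs that the ABox requires for the role name `P` -/
def abR (K : Inst) (ind : ℕ → Δ) (P : ℕ) : Set (Δ × Δ) :=
  {x | ∃ p ∈ K.rass, p.1 = P ∧ x = (ind p.2.1, ind p.2.2)}

/-- `X`, `Y` are matched sets for the role name `P` in `I` -/
def RoleGood (K : Inst) (I : Interp Δ) (P : ℕ) (X Y : Set Δ) : Prop :=
  RoleOk ((false, P) ∈ K.funcs) ((true, P) ∈ K.funcs) (domR (I.role P)) (ranR (I.role P))
    (domR (abR K I.ind P)) (ranR (abR K I.ind P)) X Y ∧ Nonempty (X ≃ Y)

/-- the individual names of the ABox have different values -/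
def InjInd (K : Inst) (ind : ℕ → Δ) : Prop := ∀ a ∈ K.inds, ∀ b ∈ K.inds, ind a = ind b → a = b

/-- the identity bits of `c` describe `ind` -/
def DescInd (K : Inst) (N : ℕ) (ind : ℕ → Δ) (c : Δ → Stt N) : Prop :=
  ∀ d a, a < N → (gb (c d).1 N 5 a = true ↔ a ∈ K.inds ∧ d = ind a)

/-- `c` describes `I` -/
structure Desc (K : Inst) (N : ℕ) (I : Interp Δ) (c : Δ → Stt N) : Prop where
  con : ∀ d A, A < N → (gb (c d).1 N 0 A = true ↔ d ∈ I.con A)
  out : ∀ d P, P < N → (gb (c d).1 N 1 P = true ↔ d ∈ domR (I.role P))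
  inc : ∀ d P, P < N → (gb (c d).1 N 2 P = true ↔ d ∈ ranR (I.role P))
  ind : DescInd K N I.ind c

end Pool.Agent.Lib.MP_bb9e9d_lc
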