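import Pool.Agent.Lib.MP_bb9e9d_lc.Sem.Defs

/-! # Relations and matched sets -/

namespace Pool.Agent.Lib.MP_bb9e9d_lc

variable {Δ : Type}

/-- Proof.  Let `e : X ≃ Y`.  Both `fo` and `fi`: `R = R0 ∪ graph e` (`D = D0 ∪ X`, `E = E0 ∪ Y`).
`fo` only: `R = R0 ∪ graph e ∪ {(d, e₀) | d ∈ D \ (D0 ∪ X)}` for some `e₀ ∈ E` (if this set is
non-empty).  `fi` only: symmetric.  Neither: `R = R0 ∪ {(d, e₀) | d ∈ D} ∪ {(d₀, e) | e ∈ E}` (if `D`,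
`E` are non-empty; otherwise `R = ∅`). -/
theorem role_build (fo fi : Prop) (D E X Y : Set Δ) (R0 : Set (Δ × Δ)) (hD : domR R0 ⊆ D)
    (hE : ranR R0 ⊆ E) (ho : fo → FunR R0) (hi : fi → InjR R0)
    (hne : D.Nonempty ↔ E.Nonempty) (h : RoleOk fo fi D E (domR R0) (ranR R0) X Y)
    (he : Nonempty (X ≃ Y)) :
    ∃ R : Set (Δ × Δ), R0 ⊆ R ∧ domR R = D ∧ ranR R = E ∧ (fo → FunR R) ∧ (fi → InjR R) := by
  obtain ⟨e⟩ := he
  by_cases hDn : D.Nonempty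
  · obtain ⟨d0, hd0⟩ := hDn
    obtain ⟨e0, he0⟩ := hne.1 ⟨d0, hd0⟩
    have hmR : ∀ d e', (d, e') ∈ R0 → d ∈ domR R0 ∧ e' ∈ ranR R0 := fun d e' h' => ⟨⟨e', h'⟩, ⟨d, h'⟩⟩
    obtain ⟨R, hR⟩ : ∃ R : Set (Δ × Δ), ∀ d e', (d, e') ∈ R ↔ ((d, e') ∈ R0 ∨
        (∃ x : X, d = x ∧ e' = e x) ∨ (¬ fi ∧ d ∈ D ∧ d ∉ domR R0 ∧ d ∉ X ∧ e' = e0) ∨
        (¬ fo ∧ e' ∈ E ∧ e' ∉ ranR R0 ∧ e' ∉ Y ∧ d = d0)) :=
      ⟨{x | (x.1, x.2) ∈ R0 ∨
        (∃ x' : X, x.1 = x' ∧ x.2 = e x') ∨ (¬ fi ∧ x.1 ∈ D ∧ x.1 ∉ domR R0 ∧ x.1 ∉ X ∧ x.2 = e0) ∨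
        (¬ fo ∧ x.2 ∈ E ∧ x.2 ∉ ranR R0 ∧ x.2 ∉ Y ∧ x.1 = d0)}, fun _ _ => Iff.rfl⟩
    refine ⟨R, ?_, ?_, ?_, ?_, ?_⟩
    · rintro ⟨d, e'⟩ h'
      exact (hR d e').2 (Or.inl h')
    · apply Set.Subset.antisymm
      · rintro d ⟨e', h'⟩
        rcases (hR d e').1 h' with h1 | ⟨x, rfl, rfl⟩ | h1 | h1
        · exact hD (hmR _ _ h1).1
        · exact (h.x _ x.2).1
        · exact h1.2.1
        · rw [h1.2.2.2.2]
          exact hd0
      · intro d hd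
        by_cases h1 : d ∈ domR R0
        · obtain ⟨e', h2⟩ := h1
          exact ⟨e', (hR d e').2 (Or.inl h2)⟩
        · by_cases h2 : d ∈ X
          · exact ⟨e ⟨d, h2⟩, (hR _ _).2 (Or.inr (Or.inl ⟨⟨d, h2⟩, rfl, rfl⟩))⟩
          · by_cases hfi : fi
            · exact absurd (h.fi hfi d hd h1) h2
            · exact ⟨e0, (hR _ _).2 (Or.inr (Or.inr (Or.inl ⟨hfi, hd, h1, h2, rfl⟩)))⟩
    · apply Set.Subset.antisymm
      · rintro e' ⟨d, h'⟩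
        rcases (hR d e').1 h' with h1 | ⟨x, rfl, rfl⟩ | h1 | h1
        · exact hE (hmR _ _ h1).2
        · exact (h.y _ (e x).2).1
        · rw [h1.2.2.2.2]
          exact he0
        · exact h1.2.1
      · intro e' he'
        by_cases h1 : e' ∈ ranR R0
        · obtain ⟨d, h2⟩ := h1
          exact ⟨d, (hR d e').2 (Or.inl h2)⟩
        · by_cases h2 : e' ∈ Y
          · refine ⟨e.symm ⟨e', h2⟩, (hR _ _).2 (Or.inr (Or.inl ⟨e.symm ⟨e', h2⟩, rfl, ?_⟩))⟩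
            rw [Equiv.apply_symm_apply]
          · by_cases hfo : fo
            · exact absurd (h.fo hfo e' he' h1) h2
            · exact ⟨d0, (hR _ _).2 (Or.inr (Or.inr (Or.inr ⟨hfo, he', h1, h2, rfl⟩)))⟩
    · intro hfo d e1 e2 h1 h2
      rcases (hR _ _).1 h1 with h1 | ⟨x, hx, hx'⟩ | h1 | h1
      · rcases (hR _ _).1 h2 with h2 | ⟨x, hx, hx'⟩ | h2 | h2
        · exact ho hfo _ _ _ h1 h2
        · exact absurd (hmR _ _ h1).1 (hx ▸ (h.x _ x.2).2.1)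
        · exact absurd (hmR _ _ h1).1 h2.2.2.1
        · exact absurd hfo h2.1
      · rcases (hR _ _).1 h2 with h2 | ⟨y, hy, hy'⟩ | h2 | h2
        · exact absurd (hmR _ _ h2).1 (hx ▸ (h.x _ x.2).2.1)
        · have : x = y := Subtype.ext (hx.symm.trans hy)
          rw [hx', hy', this]
        · exact absurd (hx ▸ x.2) h2.2.2.2.1
        · exact absurd hfo h2.1
      · rcases (hR _ _).1 h2 with h2 | ⟨y, hy, hy'⟩ | h2 | h2
        · exact absurd (hmR _ _ h2).1 h1.2.2.1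
        · exact absurd (hy ▸ y.2) h1.2.2.2.1
        · rw [h1.2.2.2.2, h2.2.2.2.2]
        · exact absurd hfo h2.1
      · exact absurd hfo h1.1
    · intro hfi d1 d2 e' h1 h2
      rcases (hR _ _).1 h1 with h1 | ⟨x, hx, hx'⟩ | h1 | h1
      · rcases (hR _ _).1 h2 with h2 | ⟨x, hx, hx'⟩ | h2 | h2
        · exact hi hfi _ _ _ h1 h2
        · exact absurd (hmR _ _ h1).2 (hx' ▸ (h.y _ (e x).2).2.1)
        · exact absurd hfi h2.1
        · exact absurd (hmR _ _ h1).2 h2.2.2.1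
      · rcases (hR _ _).1 h2 with h2 | ⟨y, hy, hy'⟩ | h2 | h2
        · exact absurd (hmR _ _ h2).2 (hx' ▸ (h.y _ (e x).2).2.1)
        · have h3 : e x = e y := Subtype.ext (hx'.symm.trans hy')
          rw [hx, hy, e.injective h3]
        · exact absurd hfi h2.1
        · exact absurd (hx' ▸ (e x).2) h2.2.2.2.1
      · exact absurd hfi h1.1
      · rcases (hR _ _).1 h2 with h2 | ⟨y, hy, hy'⟩ | h2 | h2
        · exact absurd (hmR _ _ h2).2 h1.2.2.1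
        · exact absurd (hy' ▸ (e y).2) h1.2.2.2.1
        · exact absurd hfi h2.1
        · rw [h1.2.2.2.2, h2.2.2.2.2]
  · have hEn : ¬ E.Nonempty := fun h' => hDn (hne.2 h')
    refine ⟨R0, Set.Subset.refl _, Set.Subset.antisymm hD ?_, Set.Subset.antisymm hE ?_, ho, hi⟩
    · intro d hd
      exact absurd ⟨d, hd⟩ hDn
    · intro d hd
      exact absurd ⟨d, hd⟩ hEn

end Pool.Agent.Lib.MP_bb9e9d_lc
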