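import Pool.Agent.Lib.MP_bb9e9d_lc.Sem.Defs

/-! # States -/

namespace Pool.Agent.Lib.MP_bb9e9d_lc

open MP_634427_lc

variable {Δ : Type}

/-- Proof: the word of length `6 N` with `getD (j * N + i) = f j i` (`List.ofFn` over `Fin (6 * N)`
with `k ↦ f (k / N) (k % N)`). -/
theorem exists_state (N : ℕ) (f : ℕ → ℕ → Bool) :
    ∃ s : Stt N, ∀ j < 6, ∀ i < N, gb s.1 N j i = f j i := by
  refine ⟨⟨List.ofFn (fun k : Fin (6 * N) => f (k / N) (k % N)), List.length_ofFn⟩, ?_⟩
  intro j hj i hi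
  have h1 : j * N + i < 6 * N := by
    have : (j + 1) * N ≤ 6 * N := Nat.mul_le_mul_right _ hj
    rw [add_mul, one_mul] at this
    omega
  unfold gb
  rw [decide_eq_true hi, Bool.true_and]
  rw [List.getD_eq_getElem _ _ (by rw [List.length_ofFn]; exact h1), List.getElem_ofFn]
  have h2 : (j * N + i) / N = j := by
    rw [mul_comm, Nat.mul_add_div (by omega), Nat.div_eq_of_lt hi, add_zero]
  have h3 : (j * N + i) % N = i := by
    rw [mul_comm, Nat.mul_add_mod, Nat.mod_eq_of_lt hi]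
  simp only [h2, h3]

/-- Proof: induction on `C`. -/
theorem evs_iff {K : Inst} {N : ℕ} {I : Interp Δ} {c : Δ → Stt N} (h : Desc K N I c) {C : Con}
    (hC : C.Below N) (d : Δ) : evs N (c d).1 C = true ↔ d ∈ C.ext I := by
  induction C with
  | top => exact ⟨fun _ => trivial, fun _ => rfl⟩
  | bot => exact ⟨fun h => absurd h (by simp [evs]), fun h => absurd h (Set.notMem_empty _)⟩
  | name A => exact h.con d A hC
  | ex R =>
    obtain ⟨b, P⟩ := R
    cases b with
    | true => exact h.inc d P hC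
    | false => exact h.out d P hC
  | neg C ih =>
    unfold evs Con.ext
    rw [Set.mem_compl_iff, ← ih hC]
    simp
  | inter C D ihC ihD =>
    unfold evs Con.ext
    rw [Set.mem_inter_iff, ← ihC hC.1, ← ihD hC.2, Bool.and_eq_true]

private theorem R2_ext {N : ℕ} (f : Fin N → Bool) {i : ℕ} (h : i < N) : extF f i = f ⟨i, h⟩ := by
  unfold extF
  rw [dif_pos h]

/-- The meaning of the preference flags.  Proof: unfold; `J.con q ⊂ I.con q` iff nothing grows and
something shrinks. -/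
theorem pref_iff {K : Inst} {N : ℕ} (hN : K.Below N) {I J : Interp Δ} {pl mi : Fin N → Bool}
    (hp : ∀ p : Fin N, pl p = true ↔ ¬ J.con p ⊆ I.con p)
    (hm : ∀ p : Fin N, mi p = true ↔ ¬ I.con p ⊆ J.con p) :
    (prob K N).pref pl mi ↔
      (∀ p ∈ K.mins, ¬ J.con p ⊆ I.con p → ∃ q, (q, p) ∈ K.prio ∧ J.con q ⊂ I.con q) ∧
      ∃ p ∈ K.mins, J.con p ⊂ I.con p ∧ ∀ q, (q, p) ∈ K.prio → J.con q = I.con q := by
  have hp' : ∀ p < N, (extF pl p = true ↔ ¬ J.con p ⊆ I.con p) := fun p h => by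
    rw [R2_ext pl h]
    exact hp ⟨p, h⟩
  have hm' : ∀ p < N, (extF mi p = true ↔ ¬ I.con p ⊆ J.con p) := fun p h => by
    rw [R2_ext mi h]
    exact hm ⟨p, h⟩
  have hpf : ∀ p < N, (extF pl p = false ↔ J.con p ⊆ I.con p) := fun p h => by
    rw [← Bool.not_eq_true, hp' p h, not_not]
  have hmf : ∀ p < N, (extF mi p = false ↔ I.con p ⊆ J.con p) := fun p h => by
    rw [← Bool.not_eq_true, hm' p h, not_not]
  show prefB K (extF pl) (extF mi) = true ↔ _
  unfold prefB
  rw [Bool.and_eq_true, List.all_eq_true, List.any_eq_true]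
  refine and_congr ?_ ?_
  · refine forall₂_congr fun p hpm => ?_
    have hpN := hN.mins p hpm
    rw [Bool.or_eq_true, Bool.not_eq_true', hpf p hpN, List.any_eq_true]
    constructor
    · rintro (h | ⟨r, hr, h⟩) hcon
      · exact absurd h hcon
      · rw [Bool.and_eq_true, Bool.and_eq_true, decide_eq_true_eq, Bool.not_eq_true'] at h
        obtain ⟨⟨h1, h2⟩, h3⟩ := h
        have hrN := (hN.prio r hr).1
        rw [hpf _ hrN] at h2
        rw [hm' _ hrN] at h3
        exact ⟨r.1, by rw [← h1]; exact hr, h2, h3⟩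
    · intro h
      by_cases hsub : J.con p ⊆ I.con p
      · exact Or.inl hsub
      · obtain ⟨q, hq, h1, h2⟩ := h hsub
        right
        refine ⟨(q, p), hq, ?_⟩
        have hqN := (hN.prio _ hq).1
        rw [Bool.and_eq_true, Bool.and_eq_true, decide_eq_true_eq, Bool.not_eq_true']
        exact ⟨⟨rfl, (hpf q hqN).2 h1⟩, (hm' q hqN).2 h2⟩
  · refine exists_congr fun p => and_congr_right fun hpm => ?_
    have hpN := hN.mins p hpm
    rw [Bool.and_eq_true, Bool.and_eq_true, Bool.not_eq_true', hpf p hpN, hm' p hpN, List.all_eq_true]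
    constructor
    · rintro ⟨⟨h1, h2⟩, h3⟩
      refine ⟨⟨h1, h2⟩, fun q hq => ?_⟩
      have hqN := (hN.prio _ hq).1
      have h4 := h3 _ hq
      rw [Bool.or_eq_true, Bool.not_eq_true', Bool.and_eq_true, Bool.not_eq_true', Bool.not_eq_true',
        hpf q hqN, hmf q hqN] at h4
      rcases h4 with h4 | h4
      · rw [decide_eq_false_iff_not] at h4
        exact absurd rfl h4
      · exact h4.1.antisymm h4.2
    · rintro ⟨⟨h1, h2⟩, h3⟩
      refine ⟨⟨h1, h2⟩, fun r hr => ?_⟩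
      have hrN := (hN.prio r hr).1
      rw [Bool.or_eq_true, Bool.not_eq_true', Bool.and_eq_true, Bool.not_eq_true', Bool.not_eq_true',
        hpf _ hrN, hmf _ hrN]
      by_cases h4 : r.2 = p
      · right
        have h5 := h3 r.1 (by rw [← h4]; exact hr)
        rw [h5]
        exact ⟨Set.Subset.refl _, Set.Subset.refl _⟩
      · left
        rw [decide_eq_false_iff_not]
        exact h4

/-- The meaning of the conditions for a role.  Proof: unfold `roleB`; `domR (abR K ind P)` at `d` is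
`K.rass.any fun p => decide (p.1 = P) && gb _ 5 p.2.1` by `hi` (the names of role assertions are in
`K.inds` and below `N`). -/
theorem roleB_iff {K : Inst} {N : ℕ} (hN : K.Below N) {ind : ℕ → Δ} {c : Δ → Stt N}
    (hi : DescInd K N ind c) {P : ℕ} (hP : P < N) :
    (∀ d, roleB K N (c d).1 P = true) ↔
      RoleOk ((false, P) ∈ K.funcs) ((true, P) ∈ K.funcs) {d | gb (c d).1 N 1 P = true}
        {d | gb (c d).1 N 2 P = true} (domR (abR K ind P)) (ranR (abR K ind P))
        {d | gb (c d).1 N 3 P = true} {d | gb (c d).1 N 4 P = true} := by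
  have hinds : ∀ p ∈ K.rass, p.2.1 ∈ K.inds ∧ p.2.2 ∈ K.inds := by
    intro p hp
    unfold Inst.inds
    rw [List.mem_append, List.mem_append, List.mem_flatMap, List.mem_flatMap]
    exact ⟨Or.inr ⟨p, hp, by simp⟩, Or.inr ⟨p, hp, by simp⟩⟩
  have hdom : ∀ d, (K.rass.any fun p => decide (p.1 = P) && gb (c d).1 N 5 p.2.1) = true ↔
      d ∈ domR (abR K ind P) := by
    intro d
    rw [List.any_eq_true]
    constructor
    · rintro ⟨p, hp, h⟩
      rw [Bool.and_eq_true, decide_eq_true_eq] at h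
      have h1 := (hi d p.2.1 (hN.rass p hp).2.1).1 h.2
      exact ⟨ind p.2.2, p, hp, h.1, by rw [h1.2]⟩
    · rintro ⟨e, p, hp, h1, h2⟩
      refine ⟨p, hp, ?_⟩
      rw [Bool.and_eq_true, decide_eq_true_eq]
      exact ⟨h1, (hi d p.2.1 (hN.rass p hp).2.1).2 ⟨(hinds p hp).1, (Prod.mk.inj h2).1⟩⟩
  have hran : ∀ d, (K.rass.any fun p => decide (p.1 = P) && gb (c d).1 N 5 p.2.2) = true ↔
      d ∈ ranR (abR K ind P) := by
    intro d
    rw [List.any_eq_true]
    constructor
    · rintro ⟨p, hp, h⟩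
      rw [Bool.and_eq_true, decide_eq_true_eq] at h
      have h1 := (hi d p.2.2 (hN.rass p hp).2.2).1 h.2
      exact ⟨ind p.2.1, p, hp, h.1, by rw [h1.2]⟩
    · rintro ⟨e, p, hp, h1, h2⟩
      refine ⟨p, hp, ?_⟩
      rw [Bool.and_eq_true, decide_eq_true_eq]
      exact ⟨h1, (hi d p.2.2 (hN.rass p hp).2.2).2 ⟨(hinds p hp).2, (Prod.mk.inj h2).2⟩⟩
  have hfo : ∀ b : Bool, (K.funcs.any (fun R => decide (R = (b, P)))) = true ↔ (b, P) ∈ K.funcs := by
    intro b
    rw [List.any_eq_true]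
    constructor
    · rintro ⟨R, hR, h⟩
      rw [decide_eq_true_eq] at h
      exact h ▸ hR
    · intro h
      exact ⟨_, h, decide_eq_true rfl⟩
  have hone : ∀ d, roleB K N (c d).1 P = true ↔
      (gb (c d).1 N 3 P = true → gb (c d).1 N 1 P = true ∧ d ∉ domR (abR K ind P) ∧
        ((false, P) ∈ K.funcs ∨ (true, P) ∈ K.funcs)) ∧
      (gb (c d).1 N 4 P = true → gb (c d).1 N 2 P = true ∧ d ∉ ranR (abR K ind P) ∧
        ((false, P) ∈ K.funcs ∨ (true, P) ∈ K.funcs)) ∧
      ((true, P) ∈ K.funcs → gb (c d).1 N 1 P = true → d ∉ domR (abR K ind P) → gb (c d).1 N 3 P = true) ∧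
      ((false, P) ∈ K.funcs → gb (c d).1 N 2 P = true → d ∉ ranR (abR K ind P) → gb (c d).1 N 4 P = true) := by
    intro d
    unfold roleB
    rw [← hdom d, ← hran d, ← hfo false, ← hfo true]
    generalize (K.rass.any fun p => decide (p.1 = P) && gb (c d).1 N 5 p.2.1) = a1
    generalize (K.rass.any fun p => decide (p.1 = P) && gb (c d).1 N 5 p.2.2) = a2
    generalize (K.funcs.any (fun R => decide (R = (false, P)))) = a3
    generalize (K.funcs.any (fun R => decide (R = (true, P)))) = a4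
    generalize gb (c d).1 N 1 P = b1
    generalize gb (c d).1 N 2 P = b2
    generalize gb (c d).1 N 3 P = b3
    generalize gb (c d).1 N 4 P = b4
    cases a1 <;> cases a2 <;> cases a3 <;> cases a4 <;> cases b1 <;> cases b2 <;> cases b3 <;> cases b4 <;> simp
  constructor
  · intro h
    exact ⟨fun d hd => ((hone d).1 (h d)).1 hd, fun d hd => ((hone d).1 (h d)).2.1 hd,
      fun hf d hd hd' => ((hone d).1 (h d)).2.2.1 hf hd hd', fun hf d hd hd' => ((hone d).1 (h d)).2.2.2 hf hd hd'⟩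
  · intro h d
    exact (hone d).2 ⟨fun hd => h.x d hd, fun hd => h.y d hd, fun hf hd hd' => h.fi hf d hd hd',
      fun hf hd hd' => h.fo hf d hd hd'⟩

/-- The role assertions give a functional (inverse functional) relation. -/
theorem aboxB_iff {K : Inst} {ind : ℕ → Δ} (hi : InjInd K ind) :
    aboxB K = true ↔ (∀ P, (false, P) ∈ K.funcs → FunR (abR K ind P)) ∧
      ∀ P, (true, P) ∈ K.funcs → InjR (abR K ind P) := by
  have hinds : ∀ p ∈ K.rass, p.2.1 ∈ K.inds ∧ p.2.2 ∈ K.inds := by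
    intro p hp
    unfold Inst.inds
    rw [List.mem_append, List.mem_append, List.mem_flatMap, List.mem_flatMap]
    exact ⟨Or.inr ⟨p, hp, by simp⟩, Or.inr ⟨p, hp, by simp⟩⟩
  have hfo : ∀ (b : Bool) (P : ℕ), (K.funcs.any (fun R => decide (R = (b, P)))) = true ↔ (b, P) ∈ K.funcs := by
    intro b P
    rw [List.any_eq_true]
    constructor
    · rintro ⟨R, hR, h⟩
      rw [decide_eq_true_eq] at h
      exact h ▸ hR
    · intro h
      exact ⟨_, h, decide_eq_true rfl⟩
  have hone : aboxB K = true ↔ ∀ p ∈ K.rass, ∀ q ∈ K.rass, p.1 = q.1 →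
      ((false, p.1) ∈ K.funcs → p.2.1 = q.2.1 → p.2.2 = q.2.2) ∧
      ((true, p.1) ∈ K.funcs → p.2.2 = q.2.2 → p.2.1 = q.2.1) := by
    unfold aboxB
    rw [List.all_eq_true]
    refine forall₂_congr fun p hp => ?_
    rw [List.all_eq_true]
    refine forall₂_congr fun q hq => ?_
    rw [← hfo false, ← hfo true]
    generalize (K.funcs.any (fun R => decide (R = (false, p.1)))) = a3
    generalize (K.funcs.any (fun R => decide (R = (true, p.1)))) = a4
    by_cases h1 : p.1 = q.1 <;> by_cases h2 : p.2.1 = q.2.1 <;> by_cases h3 : p.2.2 = q.2.2 <;>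
      simp [h1, h2, h3]
  rw [hone]
  constructor
  · intro h
    constructor
    · rintro P hP d e e' ⟨p, hp, h1, h2⟩ ⟨q, hq, h3, h4⟩
      obtain ⟨h5, h6⟩ := Prod.mk.inj h2
      obtain ⟨h7, h8⟩ := Prod.mk.inj h4
      have h9 : p.2.1 = q.2.1 := hi _ (hinds p hp).1 _ (hinds q hq).1 (h5.symm.trans h7)
      have h10 := (h p hp q hq (h1.trans h3.symm)).1 (by rw [h1]; exact hP) h9
      rw [h6, h8, h10]
    · rintro P hP d d' e ⟨p, hp, h1, h2⟩ ⟨q, hq, h3, h4⟩
      obtain ⟨h5, h6⟩ := Prod.mk.inj h2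
      obtain ⟨h7, h8⟩ := Prod.mk.inj h4
      have h9 : p.2.2 = q.2.2 := hi _ (hinds p hp).2 _ (hinds q hq).2 (h6.symm.trans h8)
      have h10 := (h p hp q hq (h1.trans h3.symm)).2 (by rw [h1]; exact hP) h9
      rw [h5, h7, h10]
  · rintro ⟨hf, hg⟩ p hp q hq hpq
    constructor
    · intro hP h1
      have h2 := hf p.1 hP (ind p.2.1) (ind p.2.2) (ind q.2.2) ⟨p, hp, rfl, rfl⟩
        ⟨q, hq, hpq.symm, by rw [h1]⟩
      exact hi _ (hinds p hp).2 _ (hinds q hq).2 h2
    · intro hP h1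
      have h2 := hg p.1 hP (ind p.2.1) (ind q.2.1) (ind p.2.2) ⟨p, hp, rfl, rfl⟩
        ⟨q, hq, hpq.symm, by rw [h1]⟩
      exact hi _ (hinds p hp).1 _ (hinds q hq).1 h2

end Pool.Agent.Lib.MP_bb9e9d_lc
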