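import Pool.Agent.Lib.MP_bb9e9d_lc.Sem.R1a
import Pool.Agent.Lib.MP_bb9e9d_lc.Sem.R1b
import Pool.Agent.Lib.MP_bb9e9d_lc.Sem.R2

/-! # From interpretations to configurations -/

namespace Pool.Agent.Lib.MP_bb9e9d_lc

open MP_634427_lc

variable {Δ : Type}

private theorem locB_iff' {K : Inst} {N : ℕ} {w : Word} :
    locB K N w = true ↔
      (∀ p ∈ K.cis, evs N w p.1 = true → evs N w p.2 = true) ∧
      (∀ p ∈ K.cass, gb w N 5 p.2 = true → gb w N 0 p.1 = true) ∧
      (∀ p ∈ K.rass, (gb w N 5 p.2.1 = true → gb w N 1 p.1 = true) ∧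
        (gb w N 5 p.2.2 = true → gb w N 2 p.1 = true)) ∧
      (∀ P < N, roleB K N w P = true) ∧
      (∀ a < N, gb w N 5 a = true → a ∈ K.inds ∧ ∀ b < N, gb w N 5 b = true → b = a) := by
  have hb : ∀ x y : Bool, (!x || y) = true ↔ (x = true → y = true) := by decide
  unfold locB
  simp only [Bool.and_eq_true, List.all_eq_true, hb, List.mem_range, List.any_eq_true,
    decide_eq_true_eq, exists_eq_right, and_assoc]

private theorem below_inds {K : Inst} {N : ℕ} (hN : K.Below N) {a : ℕ} (ha : a ∈ K.inds) :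
    a < N := by
  unfold Inst.inds at ha
  rw [List.mem_append, List.mem_map, List.mem_flatMap] at ha
  rcases ha with ⟨p, hp, rfl⟩ | ⟨p, hp, h⟩
  · exact (hN.cass p hp).2
  · simp only [List.mem_cons, List.not_mem_nil, or_false] at h
    rcases h with rfl | rfl
    · exact (hN.rass p hp).2.1
    · exact (hN.rass p hp).2.2

private theorem abR_sub {K : Inst} {I : Interp Δ} (h : Models I K) (P : ℕ) :
    abR K I.ind P ⊆ I.role P := by
  rintro x ⟨p, hp, rfl, rfl⟩
  exact h.rass p hp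

/-- Proof: `role_match` with `R = I.role P` and `R0 = abR K I.ind P`; functionality from `Models`
(`Interp.Rel` for `(false, P)` and `(true, P)`). -/
theorem exists_roleGood {K : Inst} {I : Interp Δ} (h : Models I K) (P : ℕ) :
    ∃ X Y : Set Δ, RoleGood K I P X Y := by
  refine role_match (I.role P) (abR K I.ind P) (abR_sub h P) _ _ ?_ ?_
  · intro hf d e e' h1 h2
    exact h.funcs _ hf d e e' (by simpa [Interp.Rel] using h1) (by simpa [Interp.Rel] using h2)
  · intro hf d d' e h1 h2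
    exact h.funcs _ hf e d d' (by simpa [Interp.Rel] using h1) (by simpa [Interp.Rel] using h2)

/-- Proof: `exists_state` for each `d`, with the bits given by `I`, `X`, `Y` and `ind`.  The local
conditions: `evs_iff`, `roleB_iff`; `named` by `InjInd`-free: the unique `d` is `I.ind a`; `ne`: both
say that `I.role P` is non-empty. -/
theorem conf_of {K : Inst} {N : ℕ} (hN : K.Below N) {I : Interp Δ} (hI : Models I K)
    (hu : InjInd K I.ind) {X Y : ℕ → Set Δ} (h : ∀ P < N, RoleGood K I P (X P) (Y P)) :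
    ∃ c : Δ → Stt N, Desc K N I c ∧ IConf (prob K N) c ∧
      ∀ d, ∀ P < N, (gb (c d).1 N 3 P = true ↔ d ∈ X P) ∧ (gb (c d).1 N 4 P = true ↔ d ∈ Y P) := by
  classical
  have hex : ∀ d : Δ, ∃ s : Stt N, ∀ j < 6, ∀ i < N, gb s.1 N j i =
      decide (if j = 0 then d ∈ I.con i else if j = 1 then d ∈ domR (I.role i)
        else if j = 2 then d ∈ ranR (I.role i) else if j = 3 then d ∈ X i
        else if j = 4 then d ∈ Y i else i ∈ K.inds ∧ d = I.ind i) :=
    fun d => exists_state N fun j i => decide (if j = 0 then d ∈ I.con i else if j = 1 then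
        d ∈ domR (I.role i)
        else if j = 2 then d ∈ ranR (I.role i) else if j = 3 then d ∈ X i
        else if j = 4 then d ∈ Y i else i ∈ K.inds ∧ d = I.ind i)
  choose c hc using hex
  have h0 : ∀ d A, A < N → (gb (c d).1 N 0 A = true ↔ d ∈ I.con A) := by
    intro d A hA
    rw [hc d 0 (by norm_num) A hA]
    simp
  have h1 : ∀ d P, P < N → (gb (c d).1 N 1 P = true ↔ d ∈ domR (I.role P)) := by
    intro d A hA
    rw [hc d 1 (by norm_num) A hA]
    simp
  have h2 : ∀ d P, P < N → (gb (c d).1 N 2 P = true ↔ d ∈ ranR (I.role P)) := by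
    intro d A hA
    rw [hc d 2 (by norm_num) A hA]
    simp
  have h3 : ∀ d P, P < N → (gb (c d).1 N 3 P = true ↔ d ∈ X P) := by
    intro d A hA
    rw [hc d 3 (by norm_num) A hA]
    simp
  have h4 : ∀ d P, P < N → (gb (c d).1 N 4 P = true ↔ d ∈ Y P) := by
    intro d A hA
    rw [hc d 4 (by norm_num) A hA]
    simp
  have h5 : ∀ d a, a < N → (gb (c d).1 N 5 a = true ↔ a ∈ K.inds ∧ d = I.ind a) := by
    intro d A hA
    rw [hc d 5 (by norm_num) A hA]
    simp
  have hD : Desc K N I c := ⟨h0, h1, h2, h5⟩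
  have s1 : ∀ P < N, {d | gb (c d).1 N 1 P = true} = domR (I.role P) := fun P hP =>
    Set.ext fun d => h1 d P hP
  have s2 : ∀ P < N, {d | gb (c d).1 N 2 P = true} = ranR (I.role P) := fun P hP =>
    Set.ext fun d => h2 d P hP
  have s3 : ∀ P < N, {d | gb (c d).1 N 3 P = true} = X P := fun P hP =>
    Set.ext fun d => h3 d P hP
  have s4 : ∀ P < N, {d | gb (c d).1 N 4 P = true} = Y P := fun P hP =>
    Set.ext fun d => h4 d P hP
  have hrole : ∀ P < N, ∀ d, roleB K N (c d).1 P = true := by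
    intro P hP
    rw [roleB_iff hN h5 hP, s1 P hP, s2 P hP, s3 P hP, s4 P hP]
    exact (h P hP).1
  refine ⟨c, hD, ⟨?_, ?_, ?_, ?_⟩, fun d P hP => ⟨h3 d P hP, h4 d P hP⟩⟩
  · intro d
    show locB K N (c d).1 = true
    rw [locB_iff']
    refine ⟨?_, ?_, ?_, fun P hP => hrole P hP d, ?_⟩
    · intro p hp he
      rw [evs_iff hD (hN.cis p hp).2]
      rw [evs_iff hD (hN.cis p hp).1] at he
      exact hI.cis p hp he
    · intro p hp hg
      obtain ⟨_, h7⟩ := (h5 d p.2 (hN.cass p hp).2).1 hg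
      rw [h0 d p.1 (hN.cass p hp).1, h7]
      exact hI.cass p hp
    · intro p hp
      constructor
      · intro hg
        obtain ⟨_, h7⟩ := (h5 d p.2.1 (hN.rass p hp).2.1).1 hg
        rw [h1 d p.1 (hN.rass p hp).1, h7]
        exact ⟨_, hI.rass p hp⟩
      · intro hg
        obtain ⟨_, h7⟩ := (h5 d p.2.2 (hN.rass p hp).2.2).1 hg
        rw [h2 d p.1 (hN.rass p hp).1, h7]
        exact ⟨_, hI.rass p hp⟩
    · intro a ha hg
      obtain ⟨h6, h7⟩ := (h5 d a ha).1 hg
      refine ⟨h6, fun b hb hgb => ?_⟩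
      obtain ⟨h8, h9⟩ := (h5 d b hb).1 hgb
      exact hu b h8 a h6 (h9.symm.trans h7)
  · intro a ha
    refine ⟨I.ind a, (h5 _ _ a.2).2 ⟨ha, rfl⟩, ?_⟩
    intro d hd
    exact ((h5 _ _ a.2).1 hd).2
  · intro P
    obtain ⟨e⟩ := (h P P.2).2
    exact ⟨((Equiv.subtypeEquivRight fun d => h3 d P P.2).trans e).trans
      (Equiv.subtypeEquivRight fun d => h4 d P P.2).symm⟩
  · intro P
    constructor
    · rintro ⟨d, hd⟩
      obtain ⟨e, he⟩ := (h1 d P P.2).1 hd
      exact ⟨e, (h2 e P P.2).2 ⟨d, he⟩⟩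
    · rintro ⟨e, he⟩
      obtain ⟨d, hd⟩ := (h2 e P P.2).1 he
      exact ⟨d, (h1 d P P.2).2 ⟨e, hd⟩⟩

end Pool.Agent.Lib.MP_bb9e9d_lc
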