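import Pool.Agent.Lib.MP_bb9e9d_lc.Sem.R1a
import Pool.Agent.Lib.MP_bb9e9d_lc.Sem.R1b
import Pool.Agent.Lib.MP_bb9e9d_lc.Sem.R2
import Pool.Agent.Lib.MP_bb9e9d_lc.Sem.R3a

/-! # From interpretations to configurations -/

namespace Pool.Agent.Lib.MP_bb9e9d_lc

open MP_634427_lc

variable {Δ : Type}

/-- Proof: `roleB_iff` and `IConf.bal`. -/
theorem roleGood_of {K : Inst} {N : ℕ} (hN : K.Below N) {I : Interp Δ} {c : Δ → Stt N}
    (hd : Desc K N I c) (hl : ∀ d, (prob K N).loc (c d))
    (hb : ∀ P, Nonempty ({d // (prob K N).xb (c d) P = true} ≃ {d // (prob K N).yb (c d) P = true}))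
    {P : ℕ} (hP : P < N) :
    RoleGood K I P {d | gb (c d).1 N 3 P = true} {d | gb (c d).1 N 4 P = true} := by
  have h1 : ∀ d, roleB K N (c d).1 P = true := by
    intro d
    have h := hl d
    change locB K N (c d).1 = true at h
    unfold locB at h
    simp only [Bool.and_eq_true] at h
    exact List.all_eq_true.1 h.1.2 P (List.mem_range.2 hP)
  have h2 := (roleB_iff hN hd.ind hP).1 h1
  have h3 : {d | gb (c d).1 N 1 P = true} = domR (I.role P) := Set.ext fun d => hd.out d P hP
  have h4 : {d | gb (c d).1 N 2 P = true} = ranR (I.role P) := Set.ext fun d => hd.inc d P hP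
  rw [h3, h4] at h2
  exact ⟨h2, hb ⟨P, hP⟩⟩

/-- A preferred model gives a preferred configuration.  Proof: `conf_of` for `J`, where `X P`, `Y P`
are the matched sets of `c` for `P ∈ K.fixR` (`roleGood_of`, `J.role P = I.role P`, `J.ind = I.ind`)
and come from `exists_roleGood` for the other `P`.  `mv`: the bits agree; `pref`: `pref_iff`. -/
theorem jconf_of_less {K : Inst} {N : ℕ} (hN : K.Below N) {I J : Interp Δ} {c : Δ → Stt N}
    (hd : Desc K N I c) (hc : IConf (prob K N) c) (hu : InjInd K I.ind) (hJ : Models J K)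
    (hl : Less K J I) : ∃ c' : Δ → Stt N, JConf (prob K N) c c' := by
  classical
  have hex : ∀ P : ℕ, ∃ XY : Set Δ × Set Δ, RoleGood K J P XY.1 XY.2 := by
    intro P
    obtain ⟨X, Y, h⟩ := exists_roleGood hJ P
    exact ⟨(X, Y), h⟩
  choose XY hXY using hex
  obtain ⟨X, hX⟩ : ∃ X : ℕ → Set Δ, X = fun P => if P ∈ K.fixR then {d | gb (c d).1 N 3 P = true} else
    (XY P).1 := ⟨_, rfl⟩
  obtain ⟨Y, hY⟩ : ∃ Y : ℕ → Set Δ, Y = fun P => if P ∈ K.fixR then {d | gb (c d).1 N 4 P = true} else
    (XY P).2 := ⟨_, rfl⟩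
  have hgood : ∀ P < N, RoleGood K J P (X P) (Y P) := by
    intro P hP
    by_cases hPf : P ∈ K.fixR
    · have h1 : X P = {d | gb (c d).1 N 3 P = true} := by rw [hX]; exact if_pos hPf
      have h2 : Y P = {d | gb (c d).1 N 4 P = true} := by rw [hY]; exact if_pos hPf
      have h3 := roleGood_of hN hd hc.loc hc.bal hP
      unfold RoleGood at h3 ⊢
      rw [h1, h2, hl.fixR P hPf, hl.ind]
      exact h3
    · have h1 : X P = (XY P).1 := by rw [hX]; exact if_neg hPf
      have h2 : Y P = (XY P).2 := by rw [hY]; exact if_neg hPf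
      rw [h1, h2]
      exact hXY P
  have hu' : InjInd K J.ind := by
    rw [hl.ind]
    exact hu
  obtain ⟨c', hd', hc', hbits⟩ := conf_of hN hJ hu' hgood
  have hbool : ∀ {a b : Bool}, (a = true ↔ b = true) → (a == b) = true := by
    intro a b h
    cases a <;> cases b <;> simp_all
  refine ⟨c', ?_, hc'.loc, hc'.bal, hc'.ne, ?_⟩
  · intro d
    show mvB K N (c d).1 (c' d).1 = true
    unfold mvB
    rw [Bool.and_eq_true, Bool.and_eq_true, List.all_eq_true, List.all_eq_true, List.all_eq_true]
    refine ⟨⟨?_, ?_⟩, ?_⟩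
    · intro A hA
      have hAN := hN.fixC A hA
      apply hbool
      rw [hd.con d A hAN, hd'.con d A hAN, hl.fixC A hA]
    · intro P hP
      have hPN := hN.fixR P hP
      have h1 : X P = {d | gb (c d).1 N 3 P = true} := by rw [hX]; exact if_pos hP
      have h2 : Y P = {d | gb (c d).1 N 4 P = true} := by rw [hY]; exact if_pos hP
      rw [Bool.and_eq_true, Bool.and_eq_true, Bool.and_eq_true]
      refine ⟨⟨⟨?_, ?_⟩, ?_⟩, ?_⟩
      · apply hbool
        rw [hd.out d P hPN, hd'.out d P hPN, hl.fixR P hP]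
      · apply hbool
        rw [hd.inc d P hPN, hd'.inc d P hPN, hl.fixR P hP]
      · apply hbool
        rw [(hbits d P hPN).1, h1]
        rfl
      · apply hbool
        rw [(hbits d P hPN).2, h2]
        rfl
    · intro a ha
      rw [List.mem_range] at ha
      apply hbool
      rw [hd.ind d a ha, hd'.ind d a ha, hl.ind]
  · have hpl : ∀ p : Fin N, (∃ d, (prob K N).mb (c' d) p = true ∧ (prob K N).mb (c d) p = false) ↔
        ¬ J.con p ⊆ I.con p := by
      intro p
      rw [Set.not_subset]
      refine exists_congr fun d => ?_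
      rw [← Bool.not_eq_true]
      exact and_congr (hd'.con d p p.2) (not_congr (hd.con d p p.2))
    have hmi : ∀ p : Fin N, (∃ d, (prob K N).mb (c d) p = true ∧ (prob K N).mb (c' d) p = false) ↔
        ¬ I.con p ⊆ J.con p := by
      intro p
      rw [Set.not_subset]
      refine exists_congr fun d => ?_
      rw [← Bool.not_eq_true]
      exact and_congr (hd.con d p p.2) (not_congr (hd'.con d p p.2))
    refine (pref_iff (I := I) (J := J) hN (fun p => ?_) (fun p => ?_)).2 ⟨hl.grow, hl.less⟩
    · rw [decide_eq_true_eq]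
      exact hpl p
    · rw [decide_eq_true_eq]
      exact hmi p

end Pool.Agent.Lib.MP_bb9e9d_lc
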