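import Pool.Agent.Lib.MP_bb9e9d_lc.Sem.R1a
import Pool.Agent.Lib.MP_bb9e9d_lc.Sem.R1b
import Pool.Agent.Lib.MP_bb9e9d_lc.Sem.R2
import Pool.Agent.Lib.MP_bb9e9d_lc.Sem.R3b

/-! # From configurations to interpretations -/

namespace Pool.Agent.Lib.MP_bb9e9d_lc

open MP_634427_lc

variable {Δ : Type}

/-- what a relation for the role name `P` has to satisfy -/
structure RelOk (K : Inst) (N : ℕ) (ind : ℕ → Δ) (c : Δ → Stt N) (P : ℕ) (R : Set (Δ × Δ)) :
    Prop where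
  ab : abR K ind P ⊆ R
  dom : domR R = {d | gb (c d).1 N 1 P = true}
  ran : ranR R = {d | gb (c d).1 N 2 P = true}
  fo : (false, P) ∈ K.funcs → FunR R
  fi : (true, P) ∈ K.funcs → InjR R

private theorem locB_iff' {K : Inst} {N : ℕ} {w : Word} :
    locB K N w = true ↔
      (∀ p ∈ K.cis, evs N w p.1 = true → evs N w p.2 = true) ∧
      (∀ p ∈ K.cass, gb w N 5 p.2 = true → gb w N 0 p.1 = true) ∧
      (∀ p ∈ K.rass, (gb w N 5 p.2.1 = true → gb w N 1 p.1 = true) ∧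
        (gb w N 5 p.2.2 = true → gb w N 2 p.1 = true)) ∧
      (∀ P < N, roleB K N w P = true) ∧
      (∀ a < N, gb w N 5 a = true → a ∈ K.inds ∧ ∀ b < N, gb w N 5 b = true → b = a) := by
  have hb : ∀ x y : Bool, (!x || y) = true ↔ (x = true → y = true) := by decide
  unfold locB
  simp only [Bool.and_eq_true, List.all_eq_true, hb, List.mem_range, List.any_eq_true,
    decide_eq_true_eq, exists_eq_right, and_assoc]

private theorem rass_inds {K : Inst} {p : ℕ × ℕ × ℕ} (hp : p ∈ K.rass) :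
    p.2.1 ∈ K.inds ∧ p.2.2 ∈ K.inds := by
  unfold Inst.inds
  constructor
  · exact List.mem_append_right _ (List.mem_flatMap.2 ⟨p, hp, by simp⟩)
  · exact List.mem_append_right _ (List.mem_flatMap.2 ⟨p, hp, by simp⟩)

private theorem cass_inds {K : Inst} {p : ℕ × ℕ} (hp : p ∈ K.cass) : p.2 ∈ K.inds := by
  unfold Inst.inds
  exact List.mem_append_left _ (List.mem_map.2 ⟨p, hp, rfl⟩)

/-- Proof: `role_build` with `R0 = abR K ind P`, `roleB_iff`, `aboxB_iff`.  `domR R0 ⊆ D` from `locB`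
(the role assertions), `hne` from `ne`. -/
theorem exists_relOk {K : Inst} {N : ℕ} (hN : K.Below N) (hab : aboxB K = true)
    {ind : ℕ → Δ} {c : Δ → Stt N} (hd : DescInd K N ind c) (hu : InjInd K ind)
    (hl : ∀ d, (prob K N).loc (c d))
    (hb : ∀ P, Nonempty ({d // (prob K N).xb (c d) P = true} ≃ {d // (prob K N).yb (c d) P = true}))
    (hn : ∀ P, (∃ d, (prob K N).ob (c d) P = true) ↔ ∃ d, (prob K N).ib (c d) P = true)
    {P : ℕ} (hP : P < N) : ∃ R, RelOk K N ind c P R := by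
  have hl' : ∀ d, locB K N (c d).1 = true := hl
  have hrole : ∀ d, roleB K N (c d).1 P = true := fun d => (locB_iff'.1 (hl' d)).2.2.2.1 P hP
  have hok := (roleB_iff hN hd hP).1 hrole
  obtain ⟨ho, hi⟩ := (aboxB_iff hu).1 hab
  have hD : domR (abR K ind P) ⊆ {d | gb (c d).1 N 1 P = true} := by
    rintro d ⟨e, p, hp, rfl, he⟩
    obtain ⟨h1, h2⟩ := Prod.mk.inj he
    exact ((locB_iff'.1 (hl' d)).2.2.1 p hp).1
      ((hd d p.2.1 (hN.rass p hp).2.1).2 ⟨(rass_inds hp).1, h1⟩)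
  have hE : ranR (abR K ind P) ⊆ {d | gb (c d).1 N 2 P = true} := by
    rintro e ⟨d, p, hp, rfl, he⟩
    obtain ⟨h1, h2⟩ := Prod.mk.inj he
    exact ((locB_iff'.1 (hl' e)).2.2.1 p hp).2
      ((hd e p.2.2 (hN.rass p hp).2.2).2 ⟨(rass_inds hp).2, h2⟩)
  obtain ⟨R, h1, h2, h3, h4, h5⟩ := role_build ((false, P) ∈ K.funcs) ((true, P) ∈ K.funcs)
    {d | gb (c d).1 N 1 P = true} {d | gb (c d).1 N 2 P = true}
    {d | gb (c d).1 N 3 P = true} {d | gb (c d).1 N 4 P = true} (abR K ind P) hD hE (ho P) (hi P)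
    (hn ⟨P, hP⟩) hok (hb ⟨P, hP⟩)
  exact ⟨R, h1, h2, h3, h4, h5⟩

/-- Proof: `I.con A = {d | gb (c d) 0 A}` for `A < N`, `∅` otherwise, `I.role P = R P`,
`I.ind = ind`.  The inclusions by `evs_iff` and `locB`. -/
theorem model_of {K : Inst} {N : ℕ} (hN : K.Below N) {ind : ℕ → Δ} {c : Δ → Stt N}
    (hd : DescInd K N ind c) (hl : ∀ d, (prob K N).loc (c d)) {R : ℕ → Set (Δ × Δ)}
    (hR : ∀ P < N, RelOk K N ind c P (R P)) :
    ∃ I : Interp Δ, I.ind = ind ∧ I.role = R ∧ Desc K N I c ∧ Models I K := by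
  have hl' : ∀ d, locB K N (c d).1 = true := hl
  have hD : Desc K N (⟨fun A => {d | gb (c d).1 N 0 A = true}, R, ind⟩ : Interp Δ) c := by
    refine ⟨fun d A _ => Iff.rfl, ?_, ?_, hd⟩
    · intro d P hP
      show _ ↔ d ∈ domR (R P)
      rw [(hR P hP).dom]
      exact Iff.rfl
    · intro d P hP
      show _ ↔ d ∈ ranR (R P)
      rw [(hR P hP).ran]
      exact Iff.rfl
  refine ⟨⟨fun A => {d | gb (c d).1 N 0 A = true}, R, ind⟩, rfl, rfl, hD, ⟨?_, ?_, ?_, ?_⟩⟩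
  · intro p hp d h
    rw [← evs_iff hD (hN.cis p hp).1] at h
    rw [← evs_iff hD (hN.cis p hp).2]
    exact (locB_iff'.1 (hl' d)).1 p hp h
  · rintro ⟨b, P⟩ hp d e e' h1 h2
    have hP : P < N := hN.funcs _ hp
    cases b
    · exact (hR P hP).fo hp d e e' (by simpa [Interp.Rel] using h1)
        (by simpa [Interp.Rel] using h2)
    · exact (hR P hP).fi hp e e' d (by simpa [Interp.Rel] using h1)
        (by simpa [Interp.Rel] using h2)
  · intro p hp
    exact (locB_iff'.1 (hl' (ind p.2))).2.1 p hp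
      ((hd _ p.2 (hN.cass p hp).2).2 ⟨cass_inds hp, rfl⟩)
  · intro p hp
    exact (hR p.1 (hN.rass p hp).1).ab ⟨p, hp, rfl, rfl⟩

end Pool.Agent.Lib.MP_bb9e9d_lc
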