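import Pool.Agent.Lib.MP_bb9e9d_lc.Sem.R1a
import Pool.Agent.Lib.MP_bb9e9d_lc.Sem.R1b
import Pool.Agent.Lib.MP_bb9e9d_lc.Sem.R2
import Pool.Agent.Lib.MP_bb9e9d_lc.Sem.R3b

/-! # From configurations to interpretations -/

namespace Pool.Agent.Lib.MP_bb9e9d_lc

open MP_634427_lc

variable {Δ : Type}

private lemma inds_lt {K : Inst} {N : ℕ} (hN : K.Below N) {a : ℕ} (ha : a ∈ K.inds) : a < N := by
  unfold Inst.inds at ha
  rw [List.mem_append, List.mem_map, List.mem_flatMap] at ha
  rcases ha with ⟨p, hp, rfl⟩ | ⟨p, hp, hp'⟩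
  · exact (hN.cass p hp).2
  · rw [List.mem_cons, List.mem_singleton] at hp'
    rcases hp' with rfl | rfl
    · exact (hN.rass p hp).2.1
    · exact (hN.rass p hp).2.2

private lemma locB_ind {K : Inst} {N : ℕ} {w : Word} (h : locB K N w = true) {a : ℕ} (ha : a < N)
    (hg : gb w N 5 a = true) : a ∈ K.inds ∧ ∀ b < N, gb w N 5 b = true → b = a := by
  unfold locB at h
  rw [Bool.and_eq_true] at h
  have h1 := List.all_eq_true.1 h.2 a (List.mem_range.2 ha)
  rw [hg, Bool.not_true, Bool.false_or, Bool.and_eq_true] at h1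
  refine ⟨?_, ?_⟩
  · obtain ⟨b, hb, hb'⟩ := List.any_eq_true.1 h1.1
    rw [decide_eq_true_eq] at hb'
    exact hb' ▸ hb
  · intro b hb hgb
    have h2 := List.all_eq_true.1 h1.2 b (List.mem_range.2 hb)
    rw [hgb, Bool.not_true, Bool.false_or, decide_eq_true_eq] at h2
    exact h2

/-- The individuals of a configuration.  Proof: for `a ∈ K.inds` let `ind a` be the element with the
identity bit `a` (`named`); different names have different elements by `locB`.  The other names:
if `u = false`, any value (`Δ` is not empty); if `u = true`, `Δ` is infinite: choose an injection of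
the other names into the complement of the finite set of the values of the names in `K.inds`.
`DescInd`: an element with the identity bit `a` has `a ∈ K.inds` by `locB`. -/
theorem exists_ind {K : Inst} {N : ℕ} (hN : K.Below N) (u : Bool) {c : Δ → Stt N} [Nonempty Δ]
    (hinf : u = true → Infinite Δ) (hc : IConf (prob K N) c) :
    ∃ ind : ℕ → Δ, DescInd K N ind c ∧
      ∀ a b, (u = true ∨ (a ∈ K.inds ∧ b ∈ K.inds)) → ind a = ind b → a = b := by
  classical
  have h1 : ∀ a ∈ K.inds, ∃ d, gb (c d).1 N 5 a = true ∧ ∀ d', gb (c d').1 N 5 a = true → d' = d :=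
    fun a ha => hc.named ⟨a, inds_lt hN ha⟩ ha
  choose! e he he' using h1
  have hee : ∀ a ∈ K.inds, ∀ b ∈ K.inds, e a = e b → a = b := by
    intro a ha b hb hab
    have e1 := he a ha
    rw [hab] at e1
    exact (locB_ind (hc.loc (e b)) (inds_lt hN hb) (he b hb)).2 a (inds_lt hN ha) e1
  obtain ⟨g, hg⟩ : ∃ g : ℕ → Δ, u = true → Function.Injective g ∧
      ∀ a, ∀ b ∈ K.inds, g a ≠ e b := by
    cases u with
    | false => exact ⟨fun _ => Classical.arbitrary Δ, fun h => by simp at h⟩
    | true =>
      have := hinf rfl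
      have hF : (e '' {b | b ∈ K.inds}).Finite := by
        apply Set.Finite.image
        exact List.finite_toSet K.inds
      have hinf' := hF.infinite_compl
      refine ⟨fun n => (hinf'.natEmbedding _ n : Δ), fun _ => ⟨?_, ?_⟩⟩
      · intro m n hmn
        exact (hinf'.natEmbedding _).injective (Subtype.ext hmn)
      · intro a b hb h
        exact (hinf'.natEmbedding _ a).2 ⟨b, hb, h.symm⟩
  refine ⟨fun a => if a ∈ K.inds then e a else g a, ?_, ?_⟩
  · intro d a ha
    constructor
    · intro h
      have h2 := (locB_ind (hc.loc d) ha h).1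
      refine ⟨h2, ?_⟩
      simp only
      rw [if_pos h2]
      exact he' a h2 d h
    · rintro ⟨h2, h3⟩
      simp only at h3
      rw [if_pos h2] at h3
      rw [h3]
      exact he a h2
  · intro a b hab h
    simp only at h
    by_cases ha : a ∈ K.inds
    · by_cases hb : b ∈ K.inds
      · rw [if_pos ha, if_pos hb] at h
        exact hee a ha b hb h
      · rw [if_pos ha, if_neg hb] at h
        rcases hab with hu | hu
        · exact ((hg hu).2 b a ha h.symm).elim
        · exact (hb hu.2).elim
    · rcases hab with hu | hu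
      · by_cases hb : b ∈ K.inds
        · rw [if_neg ha, if_pos hb] at h
          exact ((hg hu).2 a b hb h).elim
        · rw [if_neg ha, if_neg hb] at h
          exact (hg hu).1 h
      · exact (ha hu.1).elim

end Pool.Agent.Lib.MP_bb9e9d_lc
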