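import Pool.Agent.Lib.MP_bb9e9d_lc.Sem.R1a
import Pool.Agent.Lib.MP_bb9e9d_lc.Sem.R1b
import Pool.Agent.Lib.MP_bb9e9d_lc.Sem.R2
import Pool.Agent.Lib.MP_bb9e9d_lc.Sem.R3b
import Pool.Agent.Lib.MP_bb9e9d_lc.Sem.R4a

/-! # From configurations to interpretations -/

namespace Pool.Agent.Lib.MP_bb9e9d_lc

open MP_634427_lc

variable {Δ : Type}

/-- A preferred configuration gives a preferred model.  Proof: `model_of` for `c'`, with `R P = I.role P`
for `P ∈ K.fixR` (`RelOk` since the bits of `c'` and `c` agree and `I` is a model) and `R P` from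
`exists_relOk` otherwise; `DescInd` for `c'` because the identity bits agree.  `Less`: `fixC` because
the bits agree, `grow` and `less` by `pref_iff`. -/
theorem less_of_jconf {K : Inst} {N : ℕ} (hN : K.Below N) (hab : aboxB K = true)
    {I : Interp Δ} {c c' : Δ → Stt N} (hI : Models I K) (hd : Desc K N I c)
    (hu : InjInd K I.ind) (hc : JConf (prob K N) c c') :
    ∃ J : Interp Δ, Models J K ∧ Less K J I := by
  classical
  have hmv : ∀ d, (∀ A ∈ K.fixC, gb (c d).1 N 0 A = gb (c' d).1 N 0 A) ∧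
      (∀ P ∈ K.fixR, gb (c d).1 N 1 P = gb (c' d).1 N 1 P ∧ gb (c d).1 N 2 P = gb (c' d).1 N 2 P) ∧
      (∀ a < N, gb (c d).1 N 5 a = gb (c' d).1 N 5 a) := by
    intro d
    have h : mvB K N (c d).1 (c' d).1 = true := hc.mv d
    unfold mvB at h
    rw [Bool.and_eq_true, Bool.and_eq_true, List.all_eq_true, List.all_eq_true,
      List.all_eq_true] at h
    obtain ⟨⟨h1, h2⟩, h3⟩ := h
    refine ⟨fun A hA => by simpa using h1 A hA, fun P hP => ?_, fun a ha => by
      simpa using h3 a (List.mem_range.2 ha)⟩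
    have h4 := h2 P hP
    rw [Bool.and_eq_true, Bool.and_eq_true, Bool.and_eq_true] at h4
    exact ⟨by simpa using h4.1.1.1, by simpa using h4.1.1.2⟩
  have hd' : DescInd K N I.ind c' := by
    intro d a ha
    rw [← (hmv d).2.2 a ha]
    exact hd.ind d a ha
  have hex : ∀ P : ℕ, ∃ R : Set (Δ × Δ), (P ∈ K.fixR → R = I.role P) ∧
      (P < N → RelOk K N I.ind c' P R) := by
    intro P
    by_cases hPf : P ∈ K.fixR
    · refine ⟨I.role P, fun _ => rfl, fun hP => ⟨?_, ?_, ?_, ?_, ?_⟩⟩
      · rintro x ⟨p, hp, rfl, rfl⟩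
        exact hI.rass p hp
      · ext d
        rw [Set.mem_setOf_eq, ← ((hmv d).2.1 P hPf).1]
        exact (hd.out d P hP).symm
      · ext d
        rw [Set.mem_setOf_eq, ← ((hmv d).2.1 P hPf).2]
        exact (hd.inc d P hP).symm
      · intro hf d e e' h1 h2
        exact hI.funcs _ hf d e e' (by simpa [Interp.Rel] using h1) (by simpa [Interp.Rel] using h2)
      · intro hf d d' e h1 h2
        exact hI.funcs _ hf e d d' (by simpa [Interp.Rel] using h1) (by simpa [Interp.Rel] using h2)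
    · by_cases hP : P < N
      · obtain ⟨R, hR⟩ := exists_relOk hN hab hd' hu hc.loc hc.bal hc.ne hP
        exact ⟨R, fun h => absurd h hPf, fun _ => hR⟩
      · exact ⟨∅, fun h => absurd h hPf, fun h => absurd h hP⟩
  choose R hR using hex
  obtain ⟨J, hJi, hJr, hdJ, hJ⟩ := model_of hN hd' hc.loc (fun P hP => (hR P).2 hP)
  have hpl : ∀ p : Fin N, (∃ d, (prob K N).mb (c' d) p = true ∧ (prob K N).mb (c d) p = false) ↔
      ¬ J.con p ⊆ I.con p := by
    intro p
    rw [Set.not_subset]
    refine exists_congr fun d => ?_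
    rw [← Bool.not_eq_true]
    exact and_congr (hdJ.con d p p.2) (not_congr (hd.con d p p.2))
  have hmi : ∀ p : Fin N, (∃ d, (prob K N).mb (c d) p = true ∧ (prob K N).mb (c' d) p = false) ↔
      ¬ I.con p ⊆ J.con p := by
    intro p
    rw [Set.not_subset]
    refine exists_congr fun d => ?_
    rw [← Bool.not_eq_true]
    exact and_congr (hd.con d p p.2) (not_congr (hdJ.con d p p.2))
  have hpref := (pref_iff (I := I) (J := J) hN
    (pl := fun p => decide (∃ d, (prob K N).mb (c' d) p = true ∧ (prob K N).mb (c d) p = false))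
    (mi := fun p => decide (∃ d, (prob K N).mb (c d) p = true ∧ (prob K N).mb (c' d) p = false))
    (fun p => by rw [decide_eq_true_eq]; exact hpl p)
    (fun p => by rw [decide_eq_true_eq]; exact hmi p)).1 (by convert hc.pref)
  refine ⟨J, hJ, ⟨hJi, ?_, ?_, hpref.1, hpref.2⟩⟩
  · intro A hA
    have hAN := hN.fixC A hA
    ext d
    rw [← hdJ.con d A hAN, ← hd.con d A hAN, (hmv d).1 A hA]
  · intro P hP
    rw [hJr]
    exact (hR P).1 hP

end Pool.Agent.Lib.MP_bb9e9d_lc
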