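import Pool.Agent.Lib.MP_bb9e9d_lc.Sem.R1a
import Pool.Agent.Lib.MP_bb9e9d_lc.Sem.R1b
import Pool.Agent.Lib.MP_bb9e9d_lc.Sem.R2
import Pool.Agent.Lib.MP_bb9e9d_lc.Sem.R3b
import Pool.Agent.Lib.MP_bb9e9d_lc.Sem.R4a
import Pool.Agent.Lib.MP_bb9e9d_lc.Sem.R4b
import Pool.Agent.Lib.MP_bb9e9d_lc.Sem.R4c

/-! # From configurations to interpretations -/

namespace Pool.Agent.Lib.MP_bb9e9d_lc

open MP_634427_lc

variable {Δ : Type}

private theorem Sem_abR_sub {K : Inst} {I : Interp Δ} (h : Models I K) (P : ℕ) :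
    abR K I.ind P ⊆ I.role P := by
  rintro x ⟨p, hp, rfl, rfl⟩
  exact h.rass p hp

/-- The satisfiability problem in terms of configurations.
Proof: `→`: `conf_of` with `exists_roleGood`; `aboxB` by `aboxB_iff` (`abR ⊆ I.role P`); a preferred
configuration gives a preferred model (`less_of_jconf`).  `u = true`: `Δ` is infinite because
`I.ind` is injective on `ℕ`.  `←`: `exists_ind`, `exists_relOk`, `model_of`; a preferred model gives
a preferred configuration (`jconf_of_less`). -/
theorem sat_iff {K : Inst} {N : ℕ} (hN : K.Below N) (u : Bool) :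
    (∃ (Δ : Type) (I : Interp Δ), Una u K I ∧ CircModel K I ∧ (K.C0.ext I).Nonempty) ↔
      aboxB K = true ∧ HasModel u (prob K N) := by
  constructor
  · rintro ⟨Δ, I, hUna, ⟨hM, hmin⟩, ⟨d, hd⟩⟩
    have hu : InjInd K I.ind := fun a ha b hb hab => hUna a b (Or.inr ⟨ha, hb⟩) hab
    have hab : aboxB K = true := by
      rw [aboxB_iff hu]
      constructor
      · intro P hP d e e' h1 h2
        have h1' := Sem_abR_sub hM P h1
        have h2' := Sem_abR_sub hM P h2
        refine hM.funcs (false, P) hP d e e' ?_ ?_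
        · simpa [Interp.Rel] using h1'
        · simpa [Interp.Rel] using h2'
      · intro P hP d d' e h1 h2
        have h1' := Sem_abR_sub hM P h1
        have h2' := Sem_abR_sub hM P h2
        refine hM.funcs (true, P) hP e d d' ?_ ?_
        · simpa [Interp.Rel] using h1'
        · simpa [Interp.Rel] using h2'
    refine ⟨hab, ?_⟩
    choose X Y hXY using fun P => exists_roleGood hM P
    obtain ⟨c, hDesc, hconf, -⟩ := conf_of hN hM hu (X := X) (Y := Y) (fun P _ => hXY P)
    refine ⟨Δ, c, ?_, hconf, ⟨d, ?_⟩, ?_⟩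
    · intro hut
      have hinj : Function.Injective I.ind := fun a b h => hUna a b (Or.inl hut) h
      exact Infinite.of_injective I.ind hinj
    · exact (evs_iff hDesc hN.C0 d).2 hd
    · rintro ⟨c', hc'⟩
      obtain ⟨J, hJ, hl⟩ := less_of_jconf hN hab hM hDesc hu hc'
      exact hmin J hl hJ
  · rintro ⟨hab, Δ, c, hinf, hc, ⟨d, hd⟩, hno⟩
    have : Nonempty Δ := ⟨d⟩
    obtain ⟨ind, hDI, hUna⟩ := exists_ind hN u hinf hc
    have hu : InjInd K ind := fun a ha b hb hab => hUna a b (Or.inr ⟨ha, hb⟩) hab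
    have hex : ∀ P, ∃ R, P < N → RelOk K N ind c P R := by
      intro P
      by_cases hP : P < N
      · obtain ⟨R, hR⟩ := exists_relOk hN hab hDI hu hc.loc hc.bal hc.ne hP
        exact ⟨R, fun _ => hR⟩
      · exact ⟨∅, fun h => absurd h hP⟩
    choose R hR using hex
    obtain ⟨I, hI1, -, hDesc, hM⟩ := model_of hN hDI hc.loc (R := R) hR
    refine ⟨Δ, I, ?_, ⟨hM, ?_⟩, ⟨d, ?_⟩⟩
    · intro a b h1 h2
      rw [hI1] at h2
      exact hUna a b h1 h2
    · intro J hl hJ
      apply hno
      exact jconf_of_less hN hDesc hc (by rw [hI1]; exact hu) hJ hl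
    · exact (evs_iff hDesc hN.C0 d).1 hd

end Pool.Agent.Lib.MP_bb9e9d_lc
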