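import Pool.Agent.Lib.MP_bb9e9d_lc.Sem.Defs

/-! # Relations and matched sets -/

namespace Pool.Agent.Lib.MP_bb9e9d_lc

variable {Δ : Type}

/-- Proof.  Neither `fo` nor `fi`: `X = Y = ∅`.  `fo`: `Y = ranR R \ ranR R0`; choose for each `e ∈ Y` a
`d` with `(d, e) ∈ R`; by functionality `d ∉ domR R0` and the choice is injective; `X` is the set of
the chosen elements; if also `fi`, then `X` is all of `domR R \ domR R0` (the successor of such a `d`
is not in `ranR R0`, by injectivity).  `fi` only: symmetric. -/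
theorem role_match (R R0 : Set (Δ × Δ)) (h0 : R0 ⊆ R) (fo fi : Prop) (ho : fo → FunR R)
    (hi : fi → InjR R) :
    ∃ X Y : Set Δ, RoleOk fo fi (domR R) (ranR R) (domR R0) (ranR R0) X Y ∧
      Nonempty (X ≃ Y) := by
  classical
  by_cases hfo : fo
  · have hF := ho hfo
    have hex : ∀ e : {e // e ∈ ranR R ∧ e ∉ ranR R0}, ∃ d, (d, (e : Δ)) ∈ R := fun e => e.2.1
    choose g hg using hex
    have hinj : Function.Injective g := by
      intro e e' h
      have h1 := hg e'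
      rw [← h] at h1
      exact Subtype.ext (hF _ _ _ (hg e) h1)
    refine ⟨Set.range g, {e | e ∈ ranR R ∧ e ∉ ranR R0}, ⟨?_, ?_, ?_, ?_⟩,
      ⟨(Equiv.ofInjective g hinj).symm⟩⟩
    · rintro d ⟨e, rfl⟩
      refine ⟨⟨e, hg e⟩, ?_, Or.inl hfo⟩
      rintro ⟨e'', he⟩
      have h1 : (e : Δ) = e'' := hF _ _ _ (hg e) (h0 he)
      exact e.2.2 ⟨g e, by rw [h1]; exact he⟩
    · rintro e ⟨h1, h2⟩
      exact ⟨h1, h2, Or.inl hfo⟩
    · rintro hfi d ⟨e, he⟩ hd
      have hI := hi hfi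
      have h1 : e ∉ ranR R0 := by
        rintro ⟨d', hd'⟩
        have : d' = d := hI _ _ _ (h0 hd') he
        rw [this] at hd'
        exact hd ⟨e, hd'⟩
      exact ⟨⟨e, ⟨d, he⟩, h1⟩, hI _ _ _ (hg _) he⟩
    · intro _ e he he'
      exact ⟨he, he'⟩
  · by_cases hfi : fi
    · have hI := hi hfi
      have hex : ∀ d : {d // d ∈ domR R ∧ d ∉ domR R0}, ∃ e, ((d : Δ), e) ∈ R := fun d => d.2.1
      choose g hg using hex
      have hinj : Function.Injective g := by
        intro d d' h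
        have h1 := hg d'
        rw [← h] at h1
        exact Subtype.ext (hI _ _ _ (hg d) h1)
      refine ⟨{d | d ∈ domR R ∧ d ∉ domR R0}, Set.range g, ⟨?_, ?_, ?_, ?_⟩,
        ⟨Equiv.ofInjective g hinj⟩⟩
      · rintro d ⟨h1, h2⟩
        exact ⟨h1, h2, Or.inr hfi⟩
      · rintro e ⟨d, rfl⟩
        refine ⟨⟨d, hg d⟩, ?_, Or.inr hfi⟩
        rintro ⟨d'', hd⟩
        have h1 : (d : Δ) = d'' := hI _ _ _ (hg d) (h0 hd)
        exact d.2.2 ⟨g d, by rw [h1]; exact hd⟩
      · intro _ d hd hd'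
        exact ⟨hd, hd'⟩
      · intro h
        exact absurd h hfo
    · exact ⟨∅, ∅, ⟨fun _ h => absurd h (Set.notMem_empty _), fun _ h => absurd h (Set.notMem_empty _),
        fun h => absurd h hfi, fun h => absurd h hfo⟩, ⟨Equiv.refl _⟩⟩

end Pool.Agent.Lib.MP_bb9e9d_lc
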